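import Mathlib

open MeasureTheory Topology Set Filter

namespace Pool.Agent.Lib.MP_6603ca_an

/-- The cover `𝒰 ∨ T⁻¹𝒰 ∨ ⋯ ∨ T^{-(n-1)}𝒰`: all sets `⋂_{i<n} T^{-i}(f i)` with every `f i` in `𝒰`. -/
def joinCover {X : Type*} (T : X → X) (𝒰 : Set (Set X)) (n : ℕ) : Set (Set X) :=
  {W | ∃ f : ℕ → Set X, (∀ i, f i ∈ 𝒰) ∧ W = {x | ∀ i < n, T^[i] x ∈ f i}}

/-- The minimal cardinality of a (finite) subcover of `𝒰`. -/
noncomputable def coverNumber {X : Type*} (𝒰 : Set (Set X)) : ℕ :=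
  sInf {k | ∃ 𝒱 : Finset (Set X), (∀ W ∈ 𝒱, W ∈ 𝒰) ∧ (∀ x, ∃ W ∈ 𝒱, x ∈ W) ∧ 𝒱.card = k}

/-- `T` has uniform positive entropy: for every cover `{U, V}` by two non-dense open sets, the
entropy `h(T,{U,V}) = lim (1/n) log N({U,V} ∨ ⋯ ∨ T^{-(n-1)}{U,V})` is positive. -/
def UniformPositiveEntropy {X : Type*} [TopologicalSpace X] (T : X → X) : Prop :=
  ∀ U V : Set X, IsOpen U → IsOpen V → U ∪ V = univ → ¬ Dense U → ¬ Dense V →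
    ∃ h : ℝ, 0 < h ∧
      Tendsto (fun n : ℕ => Real.log (coverNumber (joinCover T {U, V} n)) / n) atTop (𝓝 h)

end Pool.Agent.Lib.MP_6603ca_an
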