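import Mathlib
import Pool.Agent.Lib.MP_6603ca_an.Defs

open MeasureTheory Topology Set Filter

namespace Pool.Agent.Lib.MP_6603ca_an

section entropy

variable {X : Type*} (T : X → X)

lemma exists_subcover (U V : Set X) (hUV : U ∪ V = univ) (n : ℕ) :
    ∃ 𝒱 : Finset (Set X), (∀ W ∈ 𝒱, W ∈ joinCover T {U, V} n) ∧ (∀ x, ∃ W ∈ 𝒱, x ∈ W) := by
  classical
  refine ⟨Finset.univ.image (fun g : Fin n → Bool =>
    {x | ∀ i < n, T^[i] x ∈ (if h : i < n then (if g ⟨i, h⟩ then U else V) else U)}), ?_, ?_⟩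
  · intro W hW
    rw [Finset.mem_image] at hW
    obtain ⟨g, -, rfl⟩ := hW
    refine ⟨fun i => (if h : i < n then (if g ⟨i, h⟩ then U else V) else U), ?_, rfl⟩
    intro i
    dsimp only
    split_ifs <;> simp
  · intro x
    refine ⟨_, Finset.mem_image_of_mem _ (Finset.mem_univ (fun i : Fin n => decide (T^[i] x ∈ U))), ?_⟩
    intro i hi
    simp only [hi, dite_true]
    by_cases hx : T^[i] x ∈ U
    · simp [hx]
    · have : T^[i] x ∈ U ∪ V := by rw [hUV]; trivial
      rcases this with h | h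
      · exact absurd h hx
      · simp [hx, h]

lemma coverNumber_spec (U V : Set X) (hUV : U ∪ V = univ) (n : ℕ) :
    ∃ 𝒱 : Finset (Set X), (∀ W ∈ 𝒱, W ∈ joinCover T {U, V} n) ∧ (∀ x, ∃ W ∈ 𝒱, x ∈ W) ∧
      𝒱.card = coverNumber (joinCover T {U, V} n) := by
  have hne : {k | ∃ 𝒱 : Finset (Set X), (∀ W ∈ 𝒱, W ∈ joinCover T {U, V} n) ∧
      (∀ x, ∃ W ∈ 𝒱, x ∈ W) ∧ 𝒱.card = k}.Nonempty := by
    obtain ⟨𝒱, h1, h2⟩ := exists_subcover T U V hUV n
    exact ⟨_, 𝒱, h1, h2, rfl⟩
  exact Nat.sInf_mem hne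

lemma coverNumber_le (𝒰 : Set (Set X)) (𝒱 : Finset (Set X)) (h1 : ∀ W ∈ 𝒱, W ∈ 𝒰)
    (h2 : ∀ x, ∃ W ∈ 𝒱, x ∈ W) : coverNumber 𝒰 ≤ 𝒱.card :=
  Nat.sInf_le ⟨𝒱, h1, h2, rfl⟩

lemma coverNumber_add_le (U V : Set X) (hUV : U ∪ V = univ) (m n : ℕ) :
    coverNumber (joinCover T {U, V} (m + n)) ≤
      coverNumber (joinCover T {U, V} m) * coverNumber (joinCover T {U, V} n) := by
  classical
  obtain ⟨𝒱, h1, h2, h3⟩ := coverNumber_spec T U V hUV m
  obtain ⟨𝒲, h4, h5, h6⟩ := coverNumber_spec T U V hUV n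
  rw [← h3, ← h6, ← Finset.card_product]
  refine le_trans ?_ (Finset.card_image_le (s := 𝒱 ×ˢ 𝒲) (f := fun p => p.1 ∩ T^[m] ⁻¹' p.2))
  apply coverNumber_le
  · intro W hW
    rw [Finset.mem_image] at hW
    obtain ⟨⟨A, B⟩, hAB, rfl⟩ := hW
    rw [Finset.mem_product] at hAB
    obtain ⟨f, hf, hA⟩ := h1 A hAB.1
    obtain ⟨g, hg, hB⟩ := h4 B hAB.2
    refine ⟨fun i => if i < m then f i else g (i - m), ?_, ?_⟩
    · intro i; dsimp only; split_ifs; exacts [hf i, hg _]
    · ext x
      simp only [hA, hB, mem_inter_iff, mem_ofPred_eq, mem_preimage]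
      constructor
      · rintro ⟨ha, hb⟩ i hi
        by_cases him : i < m
        · simpa [him] using ha i him
        · simp only [him, if_false]
          have := hb (i - m) (by omega)
          rwa [← Function.iterate_add_apply, Nat.sub_add_cancel (by omega)] at this
      · intro h
        refine ⟨fun i hi => ?_, fun i hi => ?_⟩
        · simpa [hi] using h i (by omega)
        · have := h (i + m) (by omega)
          simp only [show ¬ (i + m < m) by omega, if_false, Nat.add_sub_cancel] at this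
          rwa [Function.iterate_add_apply] at this
  · intro x
    obtain ⟨A, hA, hxA⟩ := h2 x
    obtain ⟨B, hB, hxB⟩ := h5 (T^[m] x)
    exact ⟨_, Finset.mem_image_of_mem _ (Finset.mk_mem_product hA hB), hxA, hxB⟩

lemma coverNumber_pos [Nonempty X] (U V : Set X) (hUV : U ∪ V = univ) (n : ℕ) :
    0 < coverNumber (joinCover T {U, V} n) := by
  obtain ⟨𝒱, h1, h2, h3⟩ := coverNumber_spec T U V hUV n
  rw [← h3, Finset.card_pos]
  obtain ⟨W, hW, -⟩ := h2 (Classical.arbitrary X)
  exact ⟨W, hW⟩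

/-- Positive entropy from free gluing with gap `L`. -/
lemma entropy_pos [Nonempty X] (U V : Set X) (hUV : U ∪ V = univ) (L : ℕ) (hL : 0 < L)
    (z : (ℕ → Bool) → X) (hz1 : ∀ s q, s q = true → T^[q * L] (z s) ∉ U)
    (hz2 : ∀ s q, s q = false → T^[q * L] (z s) ∉ V) :
    ∃ h : ℝ, 0 < h ∧
      Tendsto (fun n : ℕ => Real.log (coverNumber (joinCover T {U, V} n)) / n) atTop (𝓝 h) := by
  classical
  set u : ℕ → ℝ := fun n => Real.log (coverNumber (joinCover T {U, V} n)) with hu
  have hsub : Subadditive u := by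
    intro m n
    have hm := coverNumber_pos T U V hUV m
    have hn := coverNumber_pos T U V hUV n
    have hmn := coverNumber_pos T U V hUV (m + n)
    simp only [hu]
    rw [← Real.log_mul (by positivity) (by positivity)]
    apply Real.log_le_log (by positivity)
    exact_mod_cast coverNumber_add_le T U V hUV m n
  have hnonneg : ∀ n, 0 ≤ u n := by
    intro n
    apply Real.log_nonneg
    exact_mod_cast coverNumber_pos T U V hUV n
  have hbdd : BddBelow (range fun n => u n / n) := by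
    refine ⟨0, ?_⟩
    rintro _ ⟨n, rfl⟩
    exact div_nonneg (hnonneg n) (Nat.cast_nonneg n)
  have hlim := hsub.tendsto_lim hbdd
  have hlow : ∀ n : ℕ, (2 : ℝ) ^ n ≤ coverNumber (joinCover T {U, V} (n * L)) := by
    intro n
    obtain ⟨𝒱, h1, h2, h3⟩ := coverNumber_spec T U V hUV (n * L)
    rw [← h3]
    let ext : (Fin n → Bool) → (ℕ → Bool) := fun s i => if h : i < n then s ⟨i, h⟩ else true
    choose W hW hxW using h2
    have hcard : Fintype.card (Fin n → Bool) ≤ 𝒱.card := by
      rw [← Finset.card_univ]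
      apply Finset.card_le_card_of_injOn (fun s => W (z (ext s))) (fun s _ => hW _)
      intro s _ s' _ hss
      by_contra hne
      obtain ⟨q, hq⟩ := Function.ne_iff.1 hne
      obtain ⟨f, hf, hWf⟩ := h1 _ (hW (z (ext s)))
      have e1 : T^[q * L] (z (ext s)) ∈ f (q * L) := by
        have := hxW (z (ext s))
        rw [hWf] at this
        exact this (q * L) (Nat.mul_lt_mul_of_pos_right q.2 hL)
      have e2 : T^[q * L] (z (ext s')) ∈ f (q * L) := by
        have := hxW (z (ext s'))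
        dsimp only at hss
        rw [← hss, hWf] at this
        exact this (q * L) (Nat.mul_lt_mul_of_pos_right q.2 hL)
      have es : ext s q = s q := by simp [ext]
      have es' : ext s' q = s' q := by simp [ext]
      have hfq := hf (q * L)
      simp only [mem_insert_iff, mem_singleton_iff] at hfq
      cases hs : s q <;> cases hs' : s' q
      · exact hq (by rw [hs, hs'])
      · rw [hs] at es; rw [hs'] at es'
        rcases hfq with h | h
        · exact hz1 _ _ es' (h ▸ e2)
        · exact hz2 _ _ es (h ▸ e1)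
      · rw [hs] at es; rw [hs'] at es'
        rcases hfq with h | h
        · exact hz1 _ _ es (h ▸ e1)
        · exact hz2 _ _ es' (h ▸ e2)
      · exact hq (by rw [hs, hs'])
    simp only [Fintype.card_pi, Fintype.card_bool, Finset.prod_const, Finset.card_univ,
      Fintype.card_fin] at hcard
    exact_mod_cast hcard
  refine ⟨hsub.lim, ?_, hlim⟩
  have hsubseq : Tendsto (fun n : ℕ => u ((n + 1) * L) / ((n + 1) * L : ℕ)) atTop (𝓝 hsub.lim) := by
    refine hlim.comp (f := fun n : ℕ => (n + 1) * L) ?_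
    refine tendsto_atTop_mono (fun n => ?_) tendsto_id
    simp only [id]
    nlinarith
  have hge : Real.log 2 / L ≤ hsub.lim := by
    refine ge_of_tendsto' hsubseq (fun n => ?_)
    have h1 : ((n + 1 : ℕ) : ℝ) * Real.log 2 ≤ u ((n + 1) * L) := by
      have := hlow (n + 1)
      have h2 : Real.log ((2 : ℝ) ^ (n + 1)) ≤ u ((n + 1) * L) :=
        Real.log_le_log (by positivity) this
      rwa [Real.log_pow] at h2
    have hL' : (0 : ℝ) < L := by exact_mod_cast hL
    rw [div_le_div_iff₀ hL' (by positivity)]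
    push_cast at h1 ⊢
    nlinarith
  exact lt_of_lt_of_le (div_pos (Real.log_pos (by norm_num)) (by exact_mod_cast hL)) hge

end entropy


section construction

/-- The condition at level `r` on the window `[a,b]`: with gap length `(r+1)^2`, the non-zero
coordinates of `x` in `[a,b]` form clusters of diameter at most `r` separated by gaps of length at
least `(r+1)^2`, and all of them are at least `1/r`. -/
def Lev (x : ℤ → unitInterval) (a b : ℤ) (r : ℕ) : Prop :=
  ((r : ℤ) + 1) ^ 2 ≤ b - a ∧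
  (∀ c d, a ≤ c → c < d → d ≤ b → x c ≠ 0 → x d ≠ 0 → d - c ≤ r ∨ ((r : ℤ) + 1) ^ 2 ≤ d - c) ∧
  (∀ c, a ≤ c → c ≤ b → x c ≠ 0 → 1 ≤ (r : ℝ) * (x c : ℝ))

/-- The shift-invariant compact set of all `x` such that each pair of non-zero coordinates spans
a window satisfying the condition of some level. -/
def Good (x : ℤ → unitInterval) : Prop :=
  ∀ a b, a < b → x a ≠ 0 → x b ≠ 0 → ∃ r : ℕ, Lev x a b r

lemma isClosed_coord_eq_zero (a : ℤ) : IsClosed {x : ℤ → unitInterval | x a = 0} :=
  isClosed_eq (continuous_apply a) continuous_const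

lemma isClosed_ne_imp (a : ℤ) {P : (ℤ → unitInterval) → Prop} (hP : IsClosed {x | P x}) :
    IsClosed {x : ℤ → unitInterval | x a ≠ 0 → P x} := by
  have : {x : ℤ → unitInterval | x a ≠ 0 → P x} = {x | x a = 0} ∪ {x | P x} := by
    ext x; simp only [mem_ofPred_eq, mem_union]; tauto
  rw [this]
  exact (isClosed_coord_eq_zero a).union hP

lemma isClosed_pair (r : ℕ) (c d : ℤ) :
    IsClosed {x : ℤ → unitInterval | x c ≠ 0 → x d ≠ 0 → d - c ≤ r ∨ ((r : ℤ) + 1) ^ 2 ≤ d - c} :=
  isClosed_ne_imp c (isClosed_ne_imp d isClosed_const)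

lemma isClosed_val (r : ℕ) (c : ℤ) :
    IsClosed {x : ℤ → unitInterval | x c ≠ 0 → 1 ≤ (r : ℝ) * (x c : ℝ)} := by
  apply isClosed_ne_imp
  exact isClosed_le continuous_const
    (continuous_const.mul (continuous_subtype_val.comp (continuous_apply c)))

lemma isClosed_lev (a b : ℤ) (r : ℕ) : IsClosed {x | Lev x a b r} := by
  have : {x | Lev x a b r} = {x | ((r : ℤ) + 1) ^ 2 ≤ b - a} ∩
      ((⋂ (c : ℤ) (d : ℤ) (_ : a ≤ c) (_ : c < d) (_ : d ≤ b),
        {x : ℤ → unitInterval | x c ≠ 0 → x d ≠ 0 → d - c ≤ r ∨ ((r : ℤ) + 1) ^ 2 ≤ d - c}) ∩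
      (⋂ (c : ℤ) (_ : a ≤ c) (_ : c ≤ b),
        {x : ℤ → unitInterval | x c ≠ 0 → 1 ≤ (r : ℝ) * (x c : ℝ)})) := by
    ext x; simp only [Lev, mem_ofPred_eq, mem_inter_iff, mem_iInter]
  rw [this]
  refine isClosed_const.inter (IsClosed.inter ?_ ?_)
  · refine isClosed_iInter fun c => isClosed_iInter fun d => isClosed_iInter fun _ =>
      isClosed_iInter fun _ => isClosed_iInter fun _ => isClosed_pair r c d
  · exact isClosed_iInter fun c => isClosed_iInter fun _ => isClosed_iInter fun _ =>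
      isClosed_val r c

lemma isClosed_good : IsClosed {x | Good x} := by
  have : {x | Good x} = ⋂ (a : ℤ) (b : ℤ) (_ : a < b), {x : ℤ → unitInterval |
      x a ≠ 0 → x b ≠ 0 → x ∈ ⋃ r ∈ (Finset.range ((b - a).toNat + 1) : Set ℕ), {x | Lev x a b r}} := by
    ext x
    simp only [mem_ofPred_eq, mem_iInter, Good]
    refine forall_congr' fun a => forall_congr' fun b => forall_congr' fun hab =>
      forall_congr' fun _ => forall_congr' fun _ => ?_
    constructor
    · rintro ⟨r, hr⟩
      have : r < (b - a).toNat + 1 := by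
        have := hr.1
        have h2 : (r : ℤ) ≤ b - a := by nlinarith
        omega
      simp only [mem_iUnion]
      exact ⟨r, by simpa using this, hr⟩
    · intro h
      simp only [mem_iUnion] at h
      obtain ⟨r, -, hr⟩ := h
      exact ⟨r, hr⟩
  rw [this]
  refine isClosed_iInter fun a => isClosed_iInter fun b => isClosed_iInter fun _ => ?_
  refine isClosed_ne_imp a (isClosed_ne_imp b ?_)
  exact Set.Finite.isClosed_biUnion (Finset.finite_toSet _) fun r _ => isClosed_lev a b r

/-- The phase space. -/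
abbrev Space : Type := {x : ℤ → unitInterval // Good x}

instance : SecondCountableTopology Space :=
  TopologicalSpace.Subtype.secondCountableTopology {x : ℤ → unitInterval | Good x}

instance : CompactSpace Space := isCompact_iff_compactSpace.1 isClosed_good.isCompact

lemma Lev.shift {x : ℤ → unitInterval} {a b : ℤ} {r : ℕ} (k : ℤ) (h : Lev x (a + k) (b + k) r) :
    Lev (fun n => x (n + k)) a b r := by
  refine ⟨by simpa using h.1, ?_, ?_⟩
  · intro c d h1 h2 h3 h4 h5
    simpa using h.2.1 (c + k) (d + k) (by omega) (by omega) (by omega) h4 h5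
  · intro c h1 h2 h3
    exact h.2.2 (c + k) (by omega) (by omega) h3

lemma Good.shift {x : ℤ → unitInterval} (h : Good x) (k : ℤ) : Good (fun n => x (n + k)) := by
  intro a b hab ha hb
  obtain ⟨r, hr⟩ := h (a + k) (b + k) (by omega) ha hb
  exact ⟨r, hr.shift k⟩

/-- The shift homeomorphism. -/
def shiftHomeo : Space ≃ₜ Space where
  toFun x := ⟨fun n => x.1 (n + 1), x.2.shift 1⟩
  invFun x := ⟨fun n => x.1 (n + (-1)), x.2.shift (-1)⟩
  left_inv x := by ext n; simp
  right_inv x := by ext n; simp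
  continuous_toFun := by
    refine Continuous.subtype_mk (continuous_pi fun n => ?_) _
    exact (continuous_apply (n + 1)).comp continuous_subtype_val
  continuous_invFun := by
    refine Continuous.subtype_mk (continuous_pi fun n => ?_) _
    exact (continuous_apply (n + (-1))).comp continuous_subtype_val

lemma shift_iterate (k : ℕ) (x : Space) (n : ℤ) : (shiftHomeo^[k] x).1 n = x.1 (n + k) := by
  induction k generalizing x with
  | zero => simp
  | succ k ih =>
    rw [Function.iterate_succ_apply, ih]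
    show x.1 (n + k + 1) = _
    push_cast
    exact congrArg x.1 (by ring)

lemma exists_window {O : Set Space} (hO : IsOpen O) {x : Space} (hx : x ∈ O) :
    ∃ ρ : ℕ, ∀ y : Space, (∀ n : ℤ, -ρ ≤ n → n ≤ ρ → y.1 n = x.1 n) → y ∈ O := by
  obtain ⟨O', hO', rfl⟩ := isOpen_induced_iff.1 hO
  rw [isOpen_pi_iff] at hO'
  obtain ⟨I, u, hu, hsub⟩ := hO' x.1 hx
  refine ⟨I.sup Int.natAbs, fun y hy => hsub ?_⟩
  intro i hi
  have h1 : i.natAbs ≤ I.sup Int.natAbs := Finset.le_sup (f := Int.natAbs) hi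
  rw [hy i (by omega) (by omega)]
  exact (hu i hi).2

lemma exists_bound (x : ℤ → unitInterval) (ρ : ℕ) :
    ∃ N : ℕ, ∀ r : ℕ, N ≤ r → ∀ n : ℤ, -ρ ≤ n → n ≤ ρ → x n ≠ 0 → 1 ≤ (r : ℝ) * (x n : ℝ) := by
  have h1 : ∀ n : ℤ, ∃ N : ℕ, x n ≠ 0 → 1 ≤ (N : ℝ) * (x n : ℝ) := by
    intro n
    by_cases h : x n = 0
    · exact ⟨0, fun h' => absurd h h'⟩
    · have hpos : (0 : ℝ) < x n := by
        have := (x n).2.1
        rcases this.lt_or_eq with h2 | h2
        · exact h2
        · exact absurd (Subtype.ext h2.symm) h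
      obtain ⟨N, hN⟩ := exists_nat_ge (1 / (x n : ℝ))
      refine ⟨N, fun _ => ?_⟩
      rwa [div_le_iff₀ hpos] at hN
  choose N hN using h1
  refine ⟨(Finset.Icc (-(ρ : ℤ)) ρ).sup N, fun r hr n hn1 hn2 hx => ?_⟩
  have h2 : N n ≤ (Finset.Icc (-(ρ : ℤ)) ρ).sup N :=
    Finset.le_sup (f := N) (Finset.mem_Icc.2 ⟨hn1, hn2⟩)
  refine (hN n hx).trans ?_
  have h3 : (N n : ℝ) ≤ r := by exact_mod_cast h2.trans hr
  exact mul_le_mul_of_nonneg_right h3 (x n).2.1

/-- The glued configuration: window number `q` (centred at `q * L`, of radius `ρ`) carries a copy of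
`x` or of `y` according to `s q`. -/
noncomputable def glueFun (x y : ℤ → unitInterval) (ρ : ℕ) (L : ℕ) (s : ℤ → Bool) :
    ℤ → unitInterval :=
  fun n => if n - (n + ρ) / L * L ≤ ρ then
    (if s ((n + ρ) / L) then x (n - (n + ρ) / L * L) else y (n - (n + ρ) / L * L)) else 0

lemma glue_good {x y : ℤ → unitInterval} (hx : Good x) (hy : Good y) (ρ r L : ℕ)
    (hr : 2 * ρ ≤ r) (hL : L = 2 * ρ + (r + 1) ^ 2)
    (hxr : ∀ n : ℤ, -ρ ≤ n → n ≤ ρ → x n ≠ 0 → 1 ≤ (r : ℝ) * (x n : ℝ))
    (hyr : ∀ n : ℤ, -ρ ≤ n → n ≤ ρ → y n ≠ 0 → 1 ≤ (r : ℝ) * (y n : ℝ)) (s : ℤ → Bool) :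
    Good (glueFun x y ρ L s) := by
  have hLpos : (0 : ℤ) < L := by rw [hL]; positivity
  have hLz : (L : ℤ) = 2 * ρ + ((r : ℤ) + 1) ^ 2 := by rw [hL]; push_cast; ring
  -- basic facts on the index of the window
  have key : ∀ n : ℤ, glueFun x y ρ L s n ≠ 0 →
      -ρ ≤ n - (n + ρ) / L * L ∧ n - (n + ρ) / L * L ≤ ρ ∧
      1 ≤ (r : ℝ) * (glueFun x y ρ L s n : ℝ) := by
    intro n hn
    have h0 : n - (n + ρ) / L * L ≤ ρ := by
      by_contra h
      exact hn (by simp only [glueFun, if_neg h])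
    have h1 : -(ρ : ℤ) ≤ n - (n + ρ) / L * L := by
      have := Int.emod_nonneg (n + ρ) hLpos.ne'
      have h2 := Int.emod_def (n + ρ) L
      rw [mul_comm] at h2
      omega
    refine ⟨h1, h0, ?_⟩
    simp only [glueFun, if_pos h0] at hn ⊢
    split_ifs at hn ⊢ with hs
    · exact hxr _ h1 h0 hn
    · exact hyr _ h1 h0 hn
  have sep : ∀ c d : ℤ, c < d → glueFun x y ρ L s c ≠ 0 → glueFun x y ρ L s d ≠ 0 →
      (c + ρ) / L ≠ (d + ρ) / L → ((r : ℤ) + 1) ^ 2 ≤ d - c := by
    intro c d hcd hc hd hne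
    obtain ⟨c1, c2, -⟩ := key c hc
    obtain ⟨d1, d2, -⟩ := key d hd
    have hle : (c + ρ) / (L : ℤ) ≤ (d + ρ) / L := Int.ediv_le_ediv hLpos (by omega)
    have hlt : (c + ρ) / (L : ℤ) + 1 ≤ (d + ρ) / L := by omega
    have : ((c + ρ) / (L : ℤ) + 1) * L ≤ (d + ρ) / L * L :=
      mul_le_mul_of_nonneg_right hlt hLpos.le
    nlinarith
  intro a b hab ha hb
  by_cases hq : (a + ρ) / (L : ℤ) = (b + ρ) / L
  · -- same window
    obtain ⟨a1, a2, -⟩ := key a ha
    obtain ⟨b1, b2, -⟩ := key b hb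
    set q := (b + ρ) / (L : ℤ) with hqdef
    have hmid : ∀ c : ℤ, a ≤ c → c ≤ b → (c + ρ) / (L : ℤ) = q := by
      intro c h1 h2
      have e1 : (a + ρ) / (L : ℤ) ≤ (c + ρ) / L := Int.ediv_le_ediv hLpos (by omega)
      have e2 : (c + ρ) / (L : ℤ) ≤ (b + ρ) / L := Int.ediv_le_ediv hLpos (by omega)
      omega
    have main : ∀ w : ℤ → unitInterval, Good w →
        (∀ c : ℤ, a ≤ c → c ≤ b → glueFun x y ρ L s c = w (c + (-(q * L)))) →
        ∃ r, Lev (glueFun x y ρ L s) a b r := by
      intro w hw hwc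
      obtain ⟨r', hr'⟩ := hw (a + (-(q * L))) (b + (-(q * L))) (by omega)
        (by rw [← hwc a le_rfl hab.le]; exact ha) (by rw [← hwc b hab.le le_rfl]; exact hb)
      have h3 := hr'.shift
      refine ⟨r', h3.1, ?_, ?_⟩
      · intro c d h1 h2 h4 h5 h6
        rw [hwc c h1 (by omega)] at h5
        rw [hwc d (by omega) h4] at h6
        exact h3.2.1 c d h1 h2 h4 h5 h6
      · intro c h1 h2 h4
        rw [hwc c h1 h2] at h4 ⊢
        exact h3.2.2 c h1 h2 h4
    cases hs : s q
    · refine main y hy (fun c h1 h2 => ?_)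
      have h3 : c - q * L ≤ ρ := by omega
      simp only [glueFun, hmid c h1 h2, if_pos h3, hs]
      simp [sub_eq_add_neg]
    · refine main x hx (fun c h1 h2 => ?_)
      have h3 : c - q * L ≤ ρ := by omega
      simp only [glueFun, hmid c h1 h2, if_pos h3, hs]
      simp [sub_eq_add_neg]
  · refine ⟨r, sep a b hab ha hb hq, ?_, ?_⟩
    · intro c d h1 h2 h3 h4 h5
      by_cases hcd : (c + ρ) / (L : ℤ) = (d + ρ) / L
      · left
        obtain ⟨c1, c2, -⟩ := key c h4
        obtain ⟨d1, d2, -⟩ := key d h5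
        rw [hcd] at c1 c2
        have : (2 : ℤ) * ρ ≤ r := by exact_mod_cast hr
        omega
      · right
        exact sep c d h2 h4 h5 hcd
    · intro c h1 h2 h3
      exact (key c h3).2.2

lemma glue_window (x y : ℤ → unitInterval) (ρ L : ℕ) (hL : 2 * ρ < L) (s : ℤ → Bool) (q n : ℤ)
    (h1 : -ρ ≤ n) (h2 : n ≤ ρ) :
    glueFun x y ρ L s (n + q * L) = if s q then x n else y n := by
  have hLpos : (0 : ℤ) < L := by omega
  have hq : (n + q * L + ρ) / (L : ℤ) = q := by
    have e : n + q * L + ρ = (n + ρ) + q * L := by ring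
    rw [e, Int.add_mul_ediv_right _ _ hLpos.ne', Int.ediv_eq_zero_of_lt (by omega) (by omega)]
    simp
  simp only [glueFun, hq, add_sub_cancel_right]
  rw [if_pos h2]

lemma space_nonempty : Nonempty Space := ⟨⟨fun _ => 0, fun _ _ _ ha => absurd rfl ha⟩⟩

theorem upe : UniformPositiveEntropy shiftHomeo := by
  have := space_nonempty
  intro U V hU hV hUV hUd hVd
  have hne : ∀ {W : Set Space}, ¬ Dense W → ∃ x, x ∈ (closure W)ᶜ := by
    intro W hW
    rw [dense_iff_closure_eq, ← ne_eq, ne_univ_iff_exists_notMem] at hW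
    exact hW
  obtain ⟨x, hx⟩ := hne hUd
  obtain ⟨y, hy⟩ := hne hVd
  obtain ⟨ρ₁, hρ₁⟩ := exists_window isClosed_closure.isOpen_compl hx
  obtain ⟨ρ₂, hρ₂⟩ := exists_window isClosed_closure.isOpen_compl hy
  set ρ := max ρ₁ ρ₂ with hρ
  obtain ⟨N₁, hN₁⟩ := exists_bound x.1 ρ
  obtain ⟨N₂, hN₂⟩ := exists_bound y.1 ρ
  set r := max (2 * ρ) (max N₁ N₂) with hr
  set L := 2 * ρ + (r + 1) ^ 2 with hL
  have hr1 : 2 * ρ ≤ r := le_max_left _ _
  have hr2 : N₁ ≤ r := (le_max_left _ _).trans (le_max_right _ _)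
  have hr3 : N₂ ≤ r := (le_max_right _ _).trans (le_max_right _ _)
  have hLgt : 2 * ρ < L := by rw [hL]; have : 0 < (r + 1) ^ 2 := by positivity
                              omega
  let z : (ℕ → Bool) → Space := fun s =>
    ⟨glueFun x.1 y.1 ρ L (fun q => s q.toNat),
      glue_good x.2 y.2 ρ r L hr1 hL (hN₁ r hr2) (hN₂ r hr3) _⟩
  have hz : ∀ s n, (z s).1 n = glueFun x.1 y.1 ρ L (fun q => s q.toNat) n := fun _ _ => rfl
  refine entropy_pos shiftHomeo U V hUV L (by omega) z ?_ ?_
  · intro s q hs hmem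
    refine hρ₁ _ (fun n h1 h2 => ?_) (subset_closure hmem)
    rw [shift_iterate]
    push_cast
    rw [hz, glue_window x.1 y.1 ρ L hLgt _ q n (by omega) (by omega)]
    simp [hs]
  · intro s q hs hmem
    refine hρ₂ _ (fun n h1 h2 => ?_) (subset_closure hmem)
    rw [shift_iterate]
    push_cast
    rw [hz, glue_window x.1 y.1 ρ L hLgt _ q n (by omega) (by omega)]
    simp [hs]

end construction


section measure

/-- The proper closed invariant set of all points which satisfy the condition of level `r` on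
every window. -/
def Sub (r : ℕ) : Set Space :=
  {x | (∀ c d, c < d → x.1 c ≠ 0 → x.1 d ≠ 0 → d - c ≤ r ∨ ((r : ℤ) + 1) ^ 2 ≤ d - c) ∧
    ∀ c, x.1 c ≠ 0 → 1 ≤ (r : ℝ) * (x.1 c : ℝ)}

lemma isClosed_sub (r : ℕ) : IsClosed (Sub r) := by
  have : Sub r = Subtype.val ⁻¹' ((⋂ (c : ℤ) (d : ℤ) (_ : c < d),
        {x : ℤ → unitInterval | x c ≠ 0 → x d ≠ 0 → d - c ≤ r ∨ ((r : ℤ) + 1) ^ 2 ≤ d - c}) ∩
      (⋂ (c : ℤ), {x : ℤ → unitInterval | x c ≠ 0 → 1 ≤ (r : ℝ) * (x c : ℝ)})) := by
    ext x; simp only [Sub, mem_ofPred_eq, mem_inter_iff, mem_iInter, mem_preimage]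
  rw [this]
  refine IsClosed.preimage continuous_subtype_val (IsClosed.inter ?_ ?_)
  · exact isClosed_iInter fun c => isClosed_iInter fun d => isClosed_iInter fun _ =>
      isClosed_pair r c d
  · exact isClosed_iInter fun c => isClosed_val r c

lemma shift_apply (x : Space) (n : ℤ) : (shiftHomeo x).1 n = x.1 (n + 1) := rfl

lemma sub_invariant (r : ℕ) : shiftHomeo ⁻¹' (Sub r) = Sub r := by
  ext x
  simp only [Sub, mem_preimage, mem_ofPred_eq, shift_apply]
  constructor
  · rintro ⟨h1, h2⟩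
    refine ⟨fun c d hcd hc hd => ?_, fun c hc => ?_⟩
    · have := h1 (c - 1) (d - 1) (by omega) (by simpa using hc) (by simpa using hd)
      rcases this with h | h
      · left; omega
      · right; linarith
    · simpa using h2 (c - 1) (by simpa using hc)
  · rintro ⟨h1, h2⟩
    refine ⟨fun c d hcd hc hd => ?_, fun c hc => h2 _ hc⟩
    have := h1 (c + 1) (d + 1) (by omega) hc hd
    rcases this with h | h
    · left; omega
    · right; linarith

lemma exists_notMem_sub (r : ℕ) : ∃ x : Space, x ∉ Sub r ∧ x.1 0 ≠ 0 := by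
  have hv : (1 / ((r : ℝ) + 2)) ∈ Set.Icc (0 : ℝ) 1 := by
    constructor
    · positivity
    · rw [div_le_one (by positivity)]
      have : (0 : ℝ) ≤ r := Nat.cast_nonneg r
      linarith
  have hpos : (0 : ℝ) < 1 / ((r : ℝ) + 2) := by positivity
  have hne : (⟨1 / ((r : ℝ) + 2), hv⟩ : unitInterval) ≠ 0 := by
    intro h
    exact hpos.ne' (congrArg Subtype.val h)
  let x : ℤ → unitInterval := fun n => if n = 0 then ⟨1 / ((r : ℝ) + 2), hv⟩ else 0
  have hx0 : x 0 ≠ 0 := by simpa [x] using hne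
  have hx : ∀ n, x n ≠ 0 → n = 0 := by
    intro n hn
    by_contra h
    exact hn (by simp [x, h])
  refine ⟨⟨x, fun a b hab ha hb => ?_⟩, ?_, hx0⟩
  · have := hx a ha
    have := hx b hb
    omega
  · rintro ⟨-, h2⟩
    have := h2 0 hx0
    simp only [x, if_true] at this
    rw [mul_one_div, le_div_iff₀ (by positivity)] at this
    linarith

lemma card_le_of_lev {x : ℤ → unitInterval} {a b : ℤ} {r : ℕ} (h : Lev x a b r)
    (S : Finset ℤ) (hS : ∀ c ∈ S, a ≤ c ∧ c ≤ b ∧ x c ≠ 0) :
    (S.card : ℤ) * (r + 1) ≤ 2 * (b - a) := by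
  classical
  set g : ℤ := ((r : ℤ) + 1) ^ 2 with hg
  have hgpos : 0 < g := by positivity
  have hba : g ≤ b - a := h.1
  have hcard : S.card ≤ (r + 1) * (Finset.Icc (0 : ℤ) ((b - a) / g)).card := by
    refine Finset.card_le_mul_card_image_of_maps_to (f := fun c => (c - a) / g) ?_ _ ?_
    · intro c hc
      obtain ⟨h1, h2, -⟩ := hS c hc
      rw [Finset.mem_Icc]
      exact ⟨Int.ediv_nonneg (by omega) hgpos.le, Int.ediv_le_ediv hgpos (by omega)⟩
    · intro j _
      by_cases hne : ({c ∈ S | (c - a) / g = j} : Finset ℤ).Nonempty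
      · set F := ({c ∈ S | (c - a) / g = j} : Finset ℤ) with hF
        have hmin := Finset.min'_mem F hne
        set c₀ := F.min' hne with hc₀
        have hsub : F ⊆ Finset.Icc c₀ (c₀ + r) := by
          intro c hc
          have hle : c₀ ≤ c := Finset.min'_le F c hc
          rw [Finset.mem_Icc]
          refine ⟨hle, ?_⟩
          rcases hle.eq_or_lt with heq | hlt
          · omega
          rw [hF, Finset.mem_filter] at hc hmin
          obtain ⟨p1, p2, p3⟩ := hS c hc.1
          obtain ⟨q1, q2, q3⟩ := hS c₀ hmin.1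
          have hlt2 : c - c₀ < g := by
            have e1 := Int.emod_add_mul_ediv (c - a) g
            have e2 := Int.emod_add_mul_ediv (c₀ - a) g
            have e3 := Int.emod_lt_of_pos (c - a) hgpos
            have e4 := Int.emod_nonneg (c₀ - a) hgpos.ne'
            rw [hc.2] at e1
            rw [hmin.2] at e2
            linarith
          rcases h.2.1 c₀ c q1 hlt p2 q3 p3 with h5 | h5
          · linarith
          · linarith
        refine (Finset.card_le_card hsub).trans ?_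
        rw [Int.card_Icc]
        omega
      · rw [Finset.not_nonempty_iff_eq_empty] at hne
        rw [hne]
        simp
  have hq : 0 ≤ (b - a) / g := Int.ediv_nonneg (by linarith) hgpos.le
  have hcard2 : (S.card : ℤ) ≤ (r + 1) * ((b - a) / g + 1) := by
    have h1 : ((Finset.Icc (0 : ℤ) ((b - a) / g)).card : ℤ) = (b - a) / g + 1 := by
      rw [Int.card_Icc]
      omega
    have h2 : (S.card : ℤ) ≤ ((r + 1) * (Finset.Icc (0 : ℤ) ((b - a) / g)).card : ℕ) := by
      exact_mod_cast hcard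
    rw [← h1]
    push_cast at h2 ⊢
    exact h2
  have h3 : g * ((b - a) / g) ≤ b - a := Int.mul_ediv_self_le hgpos.ne'
  calc (S.card : ℤ) * (r + 1) ≤ ((r + 1) * ((b - a) / g + 1)) * (r + 1) :=
        mul_le_mul_of_nonneg_right hcard2 (by positivity)
    _ = g * ((b - a) / g) + g := by rw [hg]; ring
    _ ≤ 2 * (b - a) := by linarith

/-- The number of non-zero coordinates in the window `[-R,R]`. -/
noncomputable def cnt (x : ℤ → unitInterval) (R : ℕ) : ℕ :=
  open Classical in ((Finset.Icc (-(R : ℤ)) R).filter (fun c => x c ≠ 0)).card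

lemma tendsto_density {x : Space} (hx : ∀ r, x ∉ Sub r) :
    Tendsto (fun R : ℕ => (cnt x.1 R : ℝ) / (2 * R + 1)) atTop (𝓝 0) := by
  classical
  -- violations
  have hviol : ∀ r : ℕ, ∃ R₀ : ℕ, ∀ a b : ℤ, Lev x.1 a b r →
      ¬ (∀ c : ℤ, -R₀ ≤ c → c ≤ R₀ → x.1 c ≠ 0 → a ≤ c ∧ c ≤ b) := by
    intro r
    have := hx r
    simp only [Sub, mem_ofPred_eq, not_and_or, not_forall] at this
    rcases this with ⟨c, d, hcd, hc, hd, hn⟩ | ⟨c, hc, hn⟩
    · refine ⟨max c.natAbs d.natAbs, fun a b hlev hall => hn ?_⟩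
      obtain ⟨h1, h2⟩ := hall c (by omega) (by omega) hc
      obtain ⟨h3, h4⟩ := hall d (by omega) (by omega) hd
      exact hlev.2.1 c d h1 hcd h4 hc hd
    · refine ⟨c.natAbs, fun a b hlev hall => hn ?_⟩
      obtain ⟨h1, h2⟩ := hall c (by omega) (by omega) hc
      exact hlev.2.2 c h1 h2 hc
  choose R₀ hR₀ using hviol
  have hbound : ∀ M R : ℕ, (Finset.range (M + 1)).sup R₀ ≤ R →
      cnt x.1 R ≤ 1 ∨ cnt x.1 R * (M + 2) ≤ 4 * R := by
    intro M R hR
    by_cases hc : cnt x.1 R ≤ 1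
    · exact Or.inl hc
    right
    push Not at hc
    set S := (Finset.Icc (-(R : ℤ)) R).filter (fun c => x.1 c ≠ 0) with hS
    have hcS : cnt x.1 R = S.card := rfl
    rw [hcS] at hc ⊢
    have hne : S.Nonempty := Finset.card_pos.1 (by omega)
    set a := S.min' hne with ha
    set b := S.max' hne with hb
    have hab : a < b := Finset.min'_lt_max'_of_card S hc
    have haS := Finset.min'_mem S hne
    have hbS := Finset.max'_mem S hne
    rw [← ha] at haS
    rw [← hb] at hbS
    have haS' := haS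
    have hbS' := hbS
    rw [hS, Finset.mem_filter, Finset.mem_Icc] at haS' hbS'
    obtain ⟨r, hr⟩ := x.2 a b hab haS'.2 hbS'.2
    have hMr : M < r := by
      by_contra hcon
      push Not at hcon
      refine hR₀ r a b hr (fun c h1 h2 h3 => ?_)
      have h4 : R₀ r ≤ (Finset.range (M + 1)).sup R₀ :=
        Finset.le_sup (Finset.mem_range.2 (by omega))
      have hcS : c ∈ S := by
        rw [hS, Finset.mem_filter, Finset.mem_Icc]
        exact ⟨⟨by omega, by omega⟩, h3⟩
      exact ⟨Finset.min'_le S c hcS, Finset.le_max' S c hcS⟩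
    have h5 := card_le_of_lev hr S (fun c hc => ⟨Finset.min'_le S c hc, Finset.le_max' S c hc, by
      rw [hS, Finset.mem_filter] at hc; exact hc.2⟩)
    have h6 : (S.card : ℤ) * (M + 2) ≤ S.card * (r + 1) :=
      mul_le_mul_of_nonneg_left (by omega) (by positivity)
    have h7 : (S.card : ℤ) * (M + 2) ≤ 4 * R := by
      have := haS'.1.1
      have := hbS'.1.2
      linarith
    exact_mod_cast h7
  rw [Metric.tendsto_atTop]
  intro ε hε
  obtain ⟨M, hM⟩ := exists_nat_gt (2 / ε)
  obtain ⟨R₁, hR₁⟩ := exists_nat_gt (1 / ε)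
  refine ⟨max R₁ ((Finset.range (M + 1)).sup R₀), fun R hR => ?_⟩
  have hRR₁ : R₁ ≤ R := (le_max_left _ _).trans hR
  have hR2 := (le_max_right _ _).trans hR
  rw [Real.dist_eq, sub_zero, abs_of_nonneg (by positivity), div_lt_iff₀ (by positivity)]
  have hRr : (R₁ : ℝ) ≤ R := by exact_mod_cast hRR₁
  rcases hbound M R hR2 with h | h
  · have h1 : (cnt x.1 R : ℝ) ≤ 1 := by exact_mod_cast h
    rw [div_lt_iff₀ hε] at hR₁
    nlinarith
  · have h1 : (cnt x.1 R : ℝ) * (M + 2) ≤ 4 * R := by exact_mod_cast h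
    rw [div_lt_iff₀ hε] at hM
    have h2 : (0 : ℝ) ≤ R := Nat.cast_nonneg R
    have h3 : (0 : ℝ) < (M : ℝ) + 2 := by positivity
    have h4 : (cnt x.1 R : ℝ) ≤ 4 * R / (M + 2) := by rwa [le_div_iff₀ h3]
    refine lt_of_le_of_lt h4 ?_
    rw [div_lt_iff₀ h3]
    nlinarith [mul_nonneg hε.le h2]

lemma isOpen_coord (c : ℤ) : IsOpen {x : Space | x.1 c ≠ 0} := by
  have : {x : Space | x.1 c ≠ 0} = Subtype.val ⁻¹' {x : ℤ → unitInterval | x c = 0}ᶜ := rfl
  rw [this]
  exact (isClosed_coord_eq_zero c).isOpen_compl.preimage continuous_subtype_val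

theorem support_ne_univ (μ : Measure Space) [IsProbabilityMeasure μ] (hμ : Ergodic shiftHomeo μ) :
    μ.support ≠ univ := by
  classical
  intro hsupp
  have hpos : ∀ O : Set Space, IsOpen O → O.Nonempty → 0 < μ O := by
    rintro O hO ⟨x, hx⟩
    have h1 : x ∈ μ.support := by rw [hsupp]; trivial
    rw [Measure.mem_support_iff_forall] at h1
    exact h1 O (hO.mem_nhds hx)
  -- all the sets `Sub r` are null
  have hnull : ∀ r, ∀ᵐ x ∂μ, x ∉ Sub r := by
    intro r
    rcases hμ.toPreErgodic.ae_mem_or_ae_notMem (isClosed_sub r).measurableSet (sub_invariant r)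
      with h | h
    · exfalso
      obtain ⟨x, hx, -⟩ := exists_notMem_sub r
      have h1 := hpos (Sub r)ᶜ (isClosed_sub r).isOpen_compl ⟨x, hx⟩
      have h2 : μ (Sub r)ᶜ = 0 := h
      exact h1.ne' h2
    · exact h
  have hae : ∀ᵐ x ∂μ, ∀ r, x ∉ Sub r := ae_all_iff.2 hnull
  -- all coordinates have the same probability of being non-zero
  have hmeas : ∀ c : ℤ, MeasurableSet {x : Space | x.1 c ≠ 0} := fun c => (isOpen_coord c).measurableSet
  have hiter : ∀ k : ℕ, MeasurePreserving (shiftHomeo^[k]) μ μ := fun k =>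
    hμ.toMeasurePreserving.iterate k
  have hsame : ∀ c : ℤ, μ.real {x : Space | x.1 c ≠ 0} = μ.real {x : Space | x.1 0 ≠ 0} := by
    intro c
    have hp : ∀ (k : ℕ) (d : ℤ), μ {x : Space | x.1 (d + k) ≠ 0} = μ {x : Space | x.1 d ≠ 0} := by
      intro k d
      rw [← (hiter k).measure_preimage (hmeas d).nullMeasurableSet]
      congr 1
      ext x
      simp only [mem_ofPred_eq, mem_preimage, shift_iterate]
    rw [measureReal_def, measureReal_def]
    congr 1
    rcases le_total 0 c with h | h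
    · have := hp c.toNat 0
      rwa [Int.toNat_of_nonneg h, zero_add] at this
    · have := hp (-c).toNat c
      rw [Int.toNat_of_nonneg (by omega)] at this
      simpa using this.symm
  have hlim : Tendsto (fun R : ℕ => ∫ x, (cnt x.1 R : ℝ) / (2 * R + 1) ∂μ) atTop
      (𝓝 (∫ _, (0 : ℝ) ∂μ)) := by
    have hcnt : ∀ (R : ℕ) (x : Space), (cnt x.1 R : ℝ) =
        ∑ c ∈ Finset.Icc (-(R : ℤ)) R, {x : Space | x.1 c ≠ 0}.indicator (fun _ => (1 : ℝ)) x := by
      intro R x
      simp only [cnt, Finset.card_filter, indicator, mem_ofPred_eq]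
      push_cast
      rfl
    refine tendsto_integral_of_dominated_convergence (fun _ => (1 : ℝ)) ?_ (integrable_const 1) ?_ ?_
    · intro R
      simp only [hcnt]
      apply Measurable.aestronglyMeasurable
      refine Measurable.div_const ?_ _
      exact Finset.measurable_sum _ (fun c _ => measurable_const.indicator (hmeas c))
    · intro R
      refine Eventually.of_forall fun x => ?_
      rw [Real.norm_eq_abs, abs_of_nonneg (by positivity), div_le_one (by positivity)]
      have : cnt x.1 R ≤ (Finset.Icc (-(R : ℤ)) R).card := Finset.card_filter_le _ _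
      rw [Int.card_Icc] at this
      have h2 : cnt x.1 R ≤ 2 * R + 1 := by omega
      exact_mod_cast h2
    · filter_upwards [hae] with x hx
      exact tendsto_density hx
  have hint : ∀ R : ℕ, ∫ x : Space, (cnt x.1 R : ℝ) / (2 * R + 1) ∂μ =
      μ.real {x : Space | x.1 0 ≠ 0} := by
    intro R
    have hcnt : ∀ (x : Space), (cnt x.1 R : ℝ) =
        ∑ c ∈ Finset.Icc (-(R : ℤ)) R, {x : Space | x.1 c ≠ 0}.indicator (fun _ => (1 : ℝ)) x := by
      intro x
      simp only [cnt, Finset.card_filter, indicator, mem_ofPred_eq]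
      push_cast
      rfl
    simp only [hcnt]
    rw [integral_div, integral_finsetSum]
    · have : ∀ c : ℤ, ∫ x, {x : Space | x.1 c ≠ 0}.indicator (fun _ => (1 : ℝ)) x ∂μ =
          μ.real {x : Space | x.1 0 ≠ 0} := by
        intro c
        rw [integral_indicator (hmeas c), setIntegral_const, smul_eq_mul, mul_one, hsame c]
      simp only [this, Finset.sum_const, nsmul_eq_mul]
      rw [Int.card_Icc]
      have h3 : (((R : ℤ) + 1 - -(R : ℤ)).toNat : ℝ) = 2 * R + 1 := by
        have : ((R : ℤ) + 1 - -(R : ℤ)).toNat = 2 * R + 1 := by omega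
        rw [this]
        push_cast
        ring
      rw [h3]
      field_simp
    · intro c _
      exact (integrable_const (1 : ℝ)).indicator (hmeas c)
  simp only [hint, integral_zero] at hlim
  have hzero : μ.real {x : Space | x.1 0 ≠ 0} = 0 := tendsto_nhds_unique tendsto_const_nhds hlim
  obtain ⟨x, -, hx⟩ := exists_notMem_sub 0
  have h1 := hpos _ (isOpen_coord 0) ⟨x, hx⟩
  rw [measureReal_eq_zero_iff] at hzero
  exact h1.ne' hzero

end measure

end Pool.Agent.Lib.MP_6603ca_an
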